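import Pool.Agent.Helper91.IX.Stm

/-!
# IX: assembly (MP_160b6c_nt, torsion over infinite extensions with Galois group of bounded exponent)
-/

set_option autoImplicit false

namespace Pool.Agent.Helper91.IX.Asm

open Pool.Agent.Helper91.IX

/-- for every `L > 0` the elements of `M` killed by `L` form a group generated by `m` elements -/
def TorsionRank (M : Type) [AddCommGroup M] (m : ℕ) : Prop :=
  ∀ L : ℕ, 0 < L → ∃ t : Fin m → M, (∀ j, L • t j = 0) ∧
    ∀ x : M, L • x = 0 → x ∈ AddSubgroup.closure (Set.range t)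

/-- the elements killed by `L` are at most `L ^ m` -/
lemma card_torsion {M : Type} [AddCommGroup M] {m : ℕ} (h : TorsionRank M m) {L : ℕ} (hL : 0 < L) :
    {x : M | L • x = 0}.Finite ∧ {x : M | L • x = 0}.ncard ≤ L ^ m := by
  classical
  obtain ⟨t, h1, h2⟩ := h L hL
  let F : (Fin m → Fin L) → M := fun a => ∑ j, (a j : ℕ) • t j
  have h3 : {x : M | L • x = 0} ⊆ Set.range F := by
    intro x hx
    have h4 := h2 x hx
    obtain ⟨c, hc⟩ : ∃ c : Fin m → ℤ, x = ∑ j, c j • t j := by
      have h5 : x ∈ (Submodule.span ℤ (Set.range t)).toAddSubgroup := by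
        rw [← AddSubgroup.toIntSubmodule_toAddSubgroup (AddSubgroup.closure (Set.range t))] at h4
        rwa [← AddSubgroup.toIntSubmodule_closure]
      have h6 : x ∈ Submodule.span ℤ (Set.range t) := h5
      rw [Submodule.mem_span_range_iff_exists_fun] at h6
      obtain ⟨c, hc⟩ := h6
      exact ⟨c, hc.symm⟩
    refine ⟨fun j => ⟨(c j % L).toNat, ?_⟩, ?_⟩
    · have h7 := Int.emod_lt_of_pos (c j) (Int.natCast_pos.2 hL)
      have h8 := Int.emod_nonneg (c j) (Int.natCast_ne_zero.2 hL.ne')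
      omega
    · rw [hc]
      refine Finset.sum_congr rfl fun j _ => ?_
      have h8 := Int.emod_nonneg (c j) (Int.natCast_ne_zero.2 hL.ne')
      have h9 : (((c j % L).toNat : ℕ) : ℤ) = c j % L := Int.toNat_of_nonneg h8
      show (c j % L).toNat • t j = c j • t j
      rw [← natCast_zsmul, h9]
      conv_rhs => rw [← Int.emod_add_mul_ediv (c j) L]
      rw [add_smul, mul_comm, mul_smul, natCast_zsmul, h1 j, smul_zero, add_zero]
  have h4 : (Set.range F).Finite := Set.finite_range F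
  refine ⟨h4.subset h3, (Set.ncard_le_ncard h3 h4).trans ?_⟩
  calc (Set.range F).ncard = (F '' Set.univ).ncard := by rw [Set.image_univ]
    _ ≤ (Set.univ : Set (Fin m → Fin L)).ncard := Set.ncard_image_le Set.finite_univ
    _ = L ^ m := by
      rw [Set.ncard_univ, Nat.card_eq_fintype_card, Fintype.card_fun, Fintype.card_fin, Fintype.card_fin]

/-- a group of exponent dividing `e` acts on the elements of `l`-power order through a group of order `≤ bd m e` -/
theorem level (hF : S_FIN) {G : Type} [Group G] (N : Subgroup G) [N.Normal] {e : ℕ} (he : 0 < e)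
    (hN : ∀ σ : G, σ ^ e ∈ N) {M : Type} [AddCommGroup M] [DistribMulAction G M] {m : ℕ} (hM : TorsionRank M m)
    {l : ℕ} (hl : l.Prime) (n : ℕ) :
    ∃ H : Subgroup G, H.Normal ∧ N ≤ H ∧ H.FiniteIndex ∧ H.index ≤ bd m e ∧
      ∀ σ : G, σ ∈ H ↔ ∀ P : M, (∀ τ ∈ N, τ • P = P) → l ^ n • P = 0 → σ • P = P := by
  classical
  haveI : Fact l.Prime := ⟨hl⟩
  let V : AddSubgroup M :=
    { carrier := {x | (∀ τ ∈ N, τ • x = x) ∧ l ^ n • x = 0}
      add_mem' := fun {x y} hx hy => ⟨fun τ hτ => by rw [smul_add, hx.1 τ hτ, hy.1 τ hτ], by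
        rw [smul_add, hx.2, hy.2, add_zero]⟩
      zero_mem' := ⟨fun τ _ => smul_zero τ, smul_zero _⟩
      neg_mem' := fun {x} hx => ⟨fun τ hτ => by rw [smul_neg, hx.1 τ hτ], by rw [smul_neg, hx.2, neg_zero]⟩ }
  have hV : ∀ (σ : G), ∀ v ∈ V, σ • v ∈ V := by
    rintro σ v ⟨h1, h2⟩
    refine ⟨fun τ hτ => ?_, by rw [smul_comm, h2, smul_zero]⟩
    have h3 : σ⁻¹ * τ * σ ∈ N := by
      have := ‹N.Normal›.conj_mem τ hτ σ⁻¹
      simpa using this
    have h4 := h1 _ h3
    rwa [mul_smul, mul_smul, inv_smul_eq_iff] at h4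
  letI : DistribMulAction G V :=
    { smul := fun σ v => ⟨σ • (v : M), hV σ v v.2⟩
      one_smul := fun v => Subtype.ext (one_smul G (v : M))
      mul_smul := fun σ τ v => Subtype.ext (mul_smul σ τ (v : M))
      smul_zero := fun σ => Subtype.ext (smul_zero σ)
      smul_add := fun σ v w => Subtype.ext (smul_add σ (v : M) (w : M)) }
  have hcoe : ∀ (σ : G) (v : V), ((σ • v : V) : M) = σ • (v : M) := fun _ _ => rfl
  have hfin : Finite V := by
    refine ((card_torsion hM (pow_pos hl.pos n)).1.subset fun v hv => ?_).to_subtype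
    exact hv.2
  have hcard : ∀ L : ℕ, 0 < L → Nat.card {v : V // L • v = 0} ≤ L ^ m := by
    intro L hL
    obtain ⟨h1, h2⟩ := card_torsion hM hL
    haveI := h1.to_subtype
    refine le_trans ?_ h2
    rw [← Nat.card_coe_set_eq]
    refine Nat.card_le_card_of_injective
      (fun v : {v : V // L • v = 0} => (⟨((v : V) : M), ?_⟩ : {x : M | L • x = 0})) ?_
    · have := congrArg Subtype.val v.2
      exact this
    · intro v w hvw
      have := congrArg Subtype.val hvw
      exact Subtype.ext (Subtype.ext this)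
  let φ : G →* Equiv.Perm V := MulAction.toPermHom G V
  have hNV : ∀ σ ∈ N, φ σ = 1 := by
    intro σ hσ
    ext v
    exact v.2.1 σ hσ
  let Γ : Subgroup (Equiv.Perm V) := φ.range
  letI : DistribMulAction Γ V :=
    { smul := fun g v => (g : Equiv.Perm V) v
      one_smul := fun v => rfl
      mul_smul := fun g h v => rfl
      smul_zero := by
        rintro ⟨_, σ, rfl⟩
        exact smul_zero σ
      smul_add := by
        rintro ⟨_, σ, rfl⟩ v w
        exact smul_add σ v w }
  haveI : FaithfulSMul Γ V := ⟨fun {g h} hgh => Subtype.ext (Equiv.ext hgh)⟩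
  have hΓ : ∀ g : Γ, g ^ e = 1 := by
    rintro ⟨_, σ, rfl⟩
    refine Subtype.ext ?_
    show (φ σ) ^ e = 1
    rw [← map_pow]
    exact hNV _ (hN σ)
  have h1 : Nat.card Γ ≤ bd m e := hF l m e he V ⟨n, fun v => Subtype.ext v.2.2⟩ hcard Γ hΓ
  refine ⟨φ.ker, inferInstance, fun σ hσ => (MonoidHom.mem_ker).2 (hNV σ hσ), ⟨?_⟩, ?_, ?_⟩
  · rw [Subgroup.index_ker]
    exact Nat.card_pos.ne'
  · rw [Subgroup.index_ker]
    exact h1
  · intro σ
    rw [MonoidHom.mem_ker]
    constructor
    · intro h P h2 h3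
      exact congrArg (fun f : Equiv.Perm V => ((f ⟨P, h2, h3⟩ : V) : M)) h
    · intro h
      ext v
      exact h v v.2.1 v.2.2

/-- (1) the elements of `l`-power order fixed by `N` are fixed by a normal subgroup `H ⊇ N` of index `≤ bd m e` -/
theorem degree (hF : S_FIN) {G : Type} [Group G] (N : Subgroup G) [N.Normal] {e : ℕ} (he : 0 < e)
    (hN : ∀ σ : G, σ ^ e ∈ N) {M : Type} [AddCommGroup M] [DistribMulAction G M] {m : ℕ} (hM : TorsionRank M m)
    {l : ℕ} (hl : l.Prime) :
    ∃ H : Subgroup G, H.Normal ∧ N ≤ H ∧ H.FiniteIndex ∧ H.index ≤ bd m e ∧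
      ∀ P : M, (∀ τ ∈ N, τ • P = P) → (∃ n : ℕ, l ^ n • P = 0) → ∀ σ ∈ H, σ • P = P := by
  choose H h1 h2 h3 h4 h5 using level hF N he hN hM hl
  have hmono : ∀ {a b : ℕ}, a ≤ b → H b ≤ H a := by
    intro a b hab σ hσ
    rw [h5] at hσ ⊢
    intro P hP hPa
    refine hσ P hP ?_
    obtain ⟨c, rfl⟩ := Nat.exists_eq_add_of_le hab
    rw [pow_add, mul_comm, mul_smul, hPa, smul_zero]
  obtain ⟨n0, hn0⟩ : ∃ n0, ∀ n, (H n).index ≤ (H n0).index := by
    by_contra hcon
    push Not at hcon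
    have h6 : ∀ k : ℕ, ∃ n, k ≤ (H n).index := by
      intro k
      induction k with
      | zero => exact ⟨0, Nat.zero_le _⟩
      | succ k ih =>
        obtain ⟨n, hn⟩ := ih
        obtain ⟨n', hn'⟩ := hcon n
        exact ⟨n', by omega⟩
    obtain ⟨n, hn⟩ := h6 (bd m e + 1)
    have := h4 n
    omega
  refine ⟨H n0, h1 n0, h2 n0, h3 n0, h4 n0, ?_⟩
  rintro P hP ⟨n, hn⟩ σ hσ
  have h6 : H (max n n0) = H n0 := by
    haveI := h3 (max n n0)
    by_contra hne
    have h7 : H (max n n0) < H n0 := lt_of_le_of_ne (hmono (le_max_right _ _)) hne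
    have h8 := Subgroup.index_strictAnti h7
    have h9 := hn0 (max n n0)
    omega
  rw [← h6] at hσ
  exact (h5 n σ).1 (hmono (le_max_left _ _) hσ) P hP hn

/-- (2) -/
theorem torsion (hF : S_FIN) {G : Type} [Group G] (N : Subgroup G) [N.Normal] {e : ℕ} (he : 0 < e)
    (hN : ∀ σ : G, σ ^ e ∈ N) {M : Type} [AddCommGroup M] [DistribMulAction G M] {m : ℕ} (hM : TorsionRank M m)
    {T : ℕ} (hT : ∀ P : M, 0 < addOrderOf P → 0 < (MulAction.stabilizer G P).index →
      (MulAction.stabilizer G P).index ≤ bd m e → addOrderOf P ≤ T) :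
    {P : M | 0 < addOrderOf P ∧ ∀ σ ∈ N, σ • P = P}.Finite ∧
      {P : M | 0 < addOrderOf P ∧ ∀ σ ∈ N, σ • P = P}.ncard ≤ T.factorial ^ m := by
  obtain ⟨h1, h2⟩ := card_torsion hM (Nat.factorial_pos T)
  have h3 : {P : M | 0 < addOrderOf P ∧ ∀ σ ∈ N, σ • P = P} ⊆ {x : M | T.factorial • x = 0} := by
    rintro P ⟨hP0, hP⟩
    show T.factorial • P = 0
    rw [← addOrderOf_dvd_iff_nsmul_eq_zero, Nat.dvd_iff_prime_pow_dvd_dvd]
    intro p k hp hk
    obtain ⟨c, hc⟩ := hk
    have hc0 : c ≠ 0 := by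
      rintro rfl
      omega
    have h4 : addOrderOf (c • P) = p ^ k := by
      rw [addOrderOf_nsmul_of_dvd hc0 ⟨p ^ k, by rw [hc, mul_comm]⟩, hc,
        Nat.mul_div_cancel _ (Nat.pos_of_ne_zero hc0)]
    have h5 : p ^ k • (c • P) = 0 := by
      rw [← h4, addOrderOf_nsmul_eq_zero]
    obtain ⟨H, a1, a2, a3, a4, a5⟩ := degree hF N he hN hM hp
    have h6 : H ≤ MulAction.stabilizer G (c • P) := fun σ hσ =>
      a5 (c • P) (fun σ hσ => by rw [smul_comm, hP σ hσ]) ⟨k, h5⟩ σ hσ
    have h7 := Subgroup.index_antitone h6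
    have h8 : (MulAction.stabilizer G (c • P)).index ≠ 0 := (Subgroup.finiteIndex_of_le h6).index_ne_zero
    have h9 := hT (c • P) (by rw [h4]; exact pow_pos hp.pos k) (Nat.pos_of_ne_zero h8) (h7.trans a4)
    rw [h4] at h9
    exact Nat.dvd_factorial (pow_pos hp.pos k) h9
  exact ⟨h1.subset h3, (Set.ncard_le_ncard h3 h1).trans h2⟩

/-- the order of a point of a finite set closed under multiples -/
lemma order_le {M : Type} [AddCommGroup M] {S : Set M} (hS : S.Finite) {P : M} (hP : ∀ k : ℕ, k • P ∈ S) :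
    addOrderOf P ≤ S.ncard := by
  classical
  have h1 : Set.InjOn (fun k : ℕ => k • P) (Finset.range (addOrderOf P)) := by
    have := nsmul_injOn_Iio_addOrderOf (x := P)
    intro a ha b hb hab
    exact this (by simpa using ha) (by simpa using hb) hab
  calc addOrderOf P = ((Finset.range (addOrderOf P)).image fun k : ℕ => k • P).card := by
        rw [Finset.card_image_of_injOn h1, Finset.card_range]
    _ = (((Finset.range (addOrderOf P)).image fun k : ℕ => k • P : Finset M) : Set M).ncard :=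
        (Set.ncard_coe_finset _).symm
    _ ≤ S.ncard := Set.ncard_le_ncard (by
        intro x hx
        simp only [Finset.coe_image, Set.mem_image] at hx
        obtain ⟨k, _, rfl⟩ := hx
        exact hP k) hS

end Pool.Agent.Helper91.IX.Asm
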