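import Pool.Agent.Helper91.IX.Stm

/-!
# IX: module COP (written by helper18)
-/

set_option autoImplicit false

namespace Pool.Agent.Helper91.IX.COP

open Finset

section core

variable {V : Type} [AddCommGroup V] {Γ : Type} [Group Γ] [DistribMulAction Γ V]

lemma pow_sub {ℓ : ℕ} {σ : Γ} (h : ∀ v : V, ∃ w : V, σ • v - v = ℓ • w) (i : ℕ) (v : V) :
    ∃ w : V, σ ^ i • v - v = ℓ • w := by
  induction i with
  | zero => exact ⟨0, by simp⟩
  | succ i ih =>
    obtain ⟨w, hw⟩ := ih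
    obtain ⟨w', hw'⟩ := h (σ ^ i • v)
    refine ⟨w' + w, ?_⟩
    rw [smul_add, ← hw, ← hw', pow_succ', mul_smul]
    abel

lemma sum_eq {ℓ : ℕ} {σ : Γ} (h : ∀ v : V, ∃ w : V, σ • v - v = ℓ • w) (e : ℕ) (v : V) :
    ∃ w : V, ∑ i ∈ range e, σ ^ i • v = e • v + ℓ • w := by
  induction e with
  | zero => exact ⟨0, by simp⟩
  | succ e ih =>
    obtain ⟨w, hw⟩ := ih
    obtain ⟨w', hw'⟩ := pow_sub h e v
    refine ⟨w + w', ?_⟩
    rw [sum_range_succ, hw, smul_add, ← hw', succ_nsmul]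
    abel

lemma sum_fix {σ : Γ} {e : ℕ} (he : σ ^ e = 1) (v : V) :
    σ • (∑ i ∈ range e, σ ^ i • v) = ∑ i ∈ range e, σ ^ i • v := by
  rw [smul_sum]
  have h1 : ∀ i ∈ range e, σ • σ ^ i • v = σ ^ (i + 1) • v := fun i _ => by rw [pow_succ', mul_smul]
  rw [sum_congr rfl h1]
  have h2 := sum_range_succ (fun i => σ ^ i • v) e
  have h3 := sum_range_succ' (fun i => σ ^ i • v) e
  rw [h2, he, one_smul] at h3
  simp only [pow_zero, one_smul] at h3
  exact (add_right_cancel h3).symm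

lemma step {ℓ e K : ℕ} {σ : Γ} (hc : Nat.Coprime e (ℓ ^ K)) (hK : ∀ v : V, ℓ ^ K • v = 0) (he : σ ^ e = 1)
    (h : ∀ v : V, ∃ w : V, σ • v - v = ℓ • w) (k : ℕ) :
    ∀ v : V, ∃ w : V, σ • v - v = ℓ ^ k • w := by
  induction k with
  | zero => exact fun v => ⟨σ • v - v, by simp⟩
  | succ k ih =>
    intro v
    obtain ⟨w, hw⟩ := sum_eq h e v
    obtain ⟨w', hw'⟩ := ih w
    have h1 := sum_fix he v
    rw [hw, smul_add] at h1
    have h2 : σ • (e • v) = e • (σ • v) := smul_comm _ _ _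
    have h3 : σ • (ℓ • w) = ℓ • (σ • w) := smul_comm _ _ _
    have h4 : e • (σ • v - v) = - (ℓ • (σ • w - w)) := by
      rw [h2, h3] at h1
      rw [smul_sub, smul_sub, sub_eq_iff_eq_add]
      have : e • (σ • v) = e • v + ℓ • w - ℓ • (σ • w) := by rw [← h1]; abel
      rw [this]; abel
    have hb := Nat.gcd_eq_gcd_ab e (ℓ ^ K)
    rw [hc.gcd_eq_one] at hb
    have h5 : σ • v - v = (Nat.gcdA e (ℓ ^ K)) • (e • (σ • v - v)) := by
      have h6 : ((1 : ℤ)) • (σ • v - v) = σ • v - v := one_zsmul _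
      rw [show (1 : ℤ) = ((e : ℤ) * Nat.gcdA e (ℓ ^ K) + ((ℓ ^ K : ℕ) : ℤ) * Nat.gcdB e (ℓ ^ K)) by
        exact_mod_cast hb] at h6
      rw [add_smul, mul_comm (e : ℤ), mul_comm ((ℓ ^ K : ℕ) : ℤ), mul_smul, mul_smul, natCast_zsmul, natCast_zsmul,
        hK, smul_zero, add_zero] at h6
      exact h6.symm
    refine ⟨- ((Nat.gcdA e (ℓ ^ K)) • w'), ?_⟩
    rw [h5, h4, hw', ← mul_smul, ← pow_succ', smul_neg, smul_neg]
    rw [smul_comm]

lemma fix_all {ℓ e K : ℕ} {σ : Γ} (hc : Nat.Coprime e (ℓ ^ K)) (hK : ∀ v : V, ℓ ^ K • v = 0) (he : σ ^ e = 1)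
    (h : ∀ v : V, ∃ w : V, σ • v - v = ℓ • w) (v : V) : σ • v = v := by
  obtain ⟨w, hw⟩ := step hc hK he h K v
  rw [hK] at hw
  exact sub_eq_zero.1 hw

end core

lemma toLin (ℓ : ℕ) (W : Type) [AddCommGroup W] [Module (ZMod ℓ) W] (Γ : Type) [Group Γ] (r : Γ →* AddMonoid.End W) :
    ∃ (ρ : Γ →* (W →ₗ[ZMod ℓ] W)), ∀ g x, ρ g x = r g x := by
  refine ⟨{ toFun := fun g => AddMonoidHom.toZModLinearMap ℓ (r g), map_one' := ?_, map_mul' := ?_ }, ?_⟩
  · ext x
    show r 1 x = x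
    rw [map_one]; rfl
  · intro g h
    ext x
    show r (g * h) x = r g (r h x)
    rw [map_mul]; rfl
  · intro g x; rfl

lemma fin (ℓ : ℕ) [Fact ℓ.Prime] (m : ℕ) (W : Type) [AddCommGroup W] [Module (ZMod ℓ) W] [Finite W]
    (h : Nat.card W ≤ ℓ ^ m) : FiniteDimensional (ZMod ℓ) W ∧ Module.finrank (ZMod ℓ) W ≤ m := by
  have hfd : FiniteDimensional (ZMod ℓ) W := Module.Finite.of_finite
  refine ⟨hfd, ?_⟩
  have h1 : Nat.card W = ℓ ^ Module.finrank (ZMod ℓ) W := by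
    have := Module.natCard_eq_pow_finrank (K := ZMod ℓ) (V := W)
    rwa [Nat.card_zmod] at this
  rw [h1] at h
  exact (Nat.pow_le_pow_iff_right (Fact.out : ℓ.Prime).one_lt).1 h

lemma both (ℓ : ℕ) [Fact ℓ.Prime] (m : ℕ) (W : Type) [AddCommGroup W] [Finite W] (hkill : ∀ x : W, ℓ • x = 0)
    (h : Nat.card W ≤ ℓ ^ m) (Γ : Type) [Group Γ] (r : Γ →* AddMonoid.End W)
    (hinj : ∀ g, (∀ x, r g x = x) → g = 1) :
    ∃ (W : Type) (_ : AddCommGroup W) (_ : Module (ZMod ℓ) W) (_ : FiniteDimensional (ZMod ℓ) W)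
    (ρ : Γ →* (W →ₗ[ZMod ℓ] W)), Module.finrank (ZMod ℓ) W ≤ m ∧ Function.Injective ρ := by
  let I1 : Module (ZMod ℓ) W := AddCommGroup.zmodModule hkill
  obtain ⟨h1, h2⟩ := @fin ℓ _ m W _ I1 _ h
  obtain ⟨ρ, hρ⟩ := @toLin ℓ W _ I1 Γ _ r
  refine ⟨W, _, I1, h1, ρ, h2, ?_⟩
  intro g g' hg
  have h3 : ∀ x, r g x = r g' x := fun x => by rw [← hρ, ← hρ, hg]
  have h4 : g'⁻¹ * g = 1 := by
    refine hinj _ fun x => ?_
    rw [map_mul]
    show r g'⁻¹ (r g x) = x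
    rw [h3]
    show (r g'⁻¹ * r g') x = x
    rw [← map_mul, inv_mul_cancel, map_one]
    rfl
  rw [inv_mul_eq_one] at h4
  exact h4.symm

theorem main : S_COP := by
  intro ℓ hℓ m e he hle V _ _ hk hcard Γ _ _ _ hexp
  obtain ⟨K, hK⟩ := hk
  have hlp : ℓ.Prime := hℓ.out
  have hc : Nat.Coprime e (ℓ ^ K) := ((Nat.Prime.coprime_iff_not_dvd hlp).2 hle).symm.pow_right K
  let f : V →+ V := nsmulAddMonoidHom ℓ
  let R : AddSubgroup V := f.range
  have hR : ∀ v : V, v ∈ R ↔ ∃ w, ℓ • w = v := fun v => Iff.rfl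
  have hkill : ∀ x : V ⧸ R, ℓ • x = 0 := by
    intro x
    induction x using QuotientAddGroup.induction_on with
    | H v =>
      rw [← QuotientAddGroup.mk_nsmul]
      exact (QuotientAddGroup.eq_zero_iff _).2 ((hR _).2 ⟨v, rfl⟩)
  have hmap : ∀ g : Γ, R ≤ R.comap (DistribSMul.toAddMonoidHom V g) := by
    intro g v hv
    obtain ⟨w, hw⟩ := (hR v).1 hv
    refine (hR _).2 ⟨g • w, ?_⟩
    show ℓ • (g • w) = g • v
    rw [← hw, smul_comm]
  let r : Γ →* AddMonoid.End (V ⧸ R) :=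
    { toFun := fun g => QuotientAddGroup.map R R (DistribSMul.toAddMonoidHom V g) (hmap g)
      map_one' := by
        refine AddMonoidHom.ext fun x => ?_
        induction x using QuotientAddGroup.induction_on with
        | H v =>
          show ((((1 : Γ) • v : V)) : V ⧸ R) = (v : V ⧸ R)
          rw [one_smul]
      map_mul' := fun g h => by
        refine AddMonoidHom.ext fun x => ?_
        induction x using QuotientAddGroup.induction_on with
        | H v =>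
          show ((((g * h) • v : V)) : V ⧸ R) = ((g • (h • v) : V) : V ⧸ R)
          rw [mul_smul] }
  have hr : ∀ (g : Γ) (v : V), r g (v : V ⧸ R) = ((g • v : V) : V ⧸ R) := fun g v => rfl
  refine both ℓ m (V ⧸ R) hkill ?_ Γ r ?_
  · refine le_trans (le_of_eq ?_) hcard
    have h3 : Nat.card R * R.index = Nat.card V := R.card_mul_index
    have h4 : Nat.card f.ker * f.ker.index = Nat.card V := f.ker.card_mul_index
    have h5 : f.ker.index = Nat.card R := AddSubgroup.index_ker f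
    have h6 : Nat.card f.ker = Nat.card {v : V // ℓ • v = 0} := rfl
    have h7 : R.index = Nat.card (V ⧸ R) := rfl
    have h8 : 0 < Nat.card R := Nat.card_pos
    rw [h5, h6, ← h3, h7, mul_comm] at h4
    exact (Nat.eq_of_mul_eq_mul_left h8 h4).symm
  · intro σ hσ
    have h : ∀ v : V, ∃ w : V, σ • v - v = ℓ • w := by
      intro v
      have h1 := hσ (v : V ⧸ R)
      rw [hr] at h1
      have h2 : -v + σ • v ∈ R := QuotientAddGroup.eq.1 h1.symm
      obtain ⟨w, hw⟩ := (hR _).1 h2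
      exact ⟨w, by rw [hw]; abel⟩
    refine FaithfulSMul.eq_of_smul_eq_smul (α := V) fun v => ?_
    rw [one_smul]
    exact fix_all hc hK (hexp σ) h v

end Pool.Agent.Helper91.IX.COP

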