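import Pool.Agent.Helper91.IX.Stm

/-!
# IX, module DIV (helper37)
-/

set_option autoImplicit false

namespace Pool.Agent.Helper91.IX.DIV

open Finset

variable {V : Type} [AddCommGroup V]

lemma card_quot [Finite V] (n : ℕ) : Nat.card (V ⧸ (nsmulAddMonoidHom n : V →+ V).range) =
    Nat.card {v : V // n • v = 0} := by
  have h1 := AddSubgroup.card_mul_index (nsmulAddMonoidHom n : V →+ V).range
  have h2 := AddSubgroup.card_mul_index (nsmulAddMonoidHom n : V →+ V).ker
  rw [AddSubgroup.index_ker] at h2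
  have h3 : 0 < Nat.card (nsmulAddMonoidHom n : V →+ V).range := Nat.card_pos
  have h4 : Nat.card (nsmulAddMonoidHom n : V →+ V).ker = Nat.card {v : V // n • v = 0} :=
    Nat.card_congr (Equiv.subtypeEquivRight fun v => by
      rw [AddMonoidHom.mem_ker, nsmulAddMonoidHom_apply])
  have h5 : Nat.card (V ⧸ (nsmulAddMonoidHom n : V →+ V).range) =
    (nsmulAddMonoidHom n : V →+ V).range.index := rfl
  rw [h5, ← h4]
  apply Nat.eq_of_mul_eq_mul_left h3
  rw [h1, ← h2, mul_comm]

variable {Γ : Type} [Group Γ] [DistribMulAction Γ V]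

lemma smul_ns (σ : Γ) (n : ℕ) (v : V) : σ • (n • v) = n • (σ • v) :=
  map_nsmul (DistribSMul.toAddMonoidHom V σ) n v

/-- the action on the quotient -/
noncomputable def act (n : ℕ) : MulAction Γ (V ⧸ (nsmulAddMonoidHom n : V →+ V).range) where
  smul σ := QuotientAddGroup.map _ _ (DistribSMul.toAddMonoidHom V σ) (by
    rintro _ ⟨v, rfl⟩
    rw [AddSubgroup.mem_comap]
    refine ⟨σ • v, ?_⟩
    rw [nsmulAddMonoidHom_apply, nsmulAddMonoidHom_apply, DistribSMul.toAddMonoidHom_apply, smul_ns])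
  one_smul q := by
    induction q using QuotientAddGroup.induction_on with
    | H v =>
      show QuotientAddGroup.mk ((1 : Γ) • v) = _
      rw [one_smul]
  mul_smul σ τ q := by
    induction q using QuotientAddGroup.induction_on with
    | H v =>
      show QuotientAddGroup.mk ((σ * τ) • v) = QuotientAddGroup.mk (σ • (τ • v))
      rw [mul_smul]

/-- the kernel -/
lemma mem_kernel (n : ℕ) (σ : Γ) :
    letI := act (V := V) (Γ := Γ) n
    σ ∈ (MulAction.toPermHom Γ (V ⧸ (nsmulAddMonoidHom n : V →+ V).range)).ker ↔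
      ∀ v : V, ∃ w : V, σ • v = v + n • w := by
  letI := act (V := V) (Γ := Γ) n
  rw [MonoidHom.mem_ker]
  constructor
  · intro h v
    have h1 := DFunLike.congr_fun h (QuotientAddGroup.mk v)
    have h2 : (QuotientAddGroup.mk (σ • v) : V ⧸ (nsmulAddMonoidHom n : V →+ V).range) =
      QuotientAddGroup.mk v := h1
    have h3 := QuotientAddGroup.eq.1 h2.symm
    obtain ⟨w, hw⟩ := h3
    refine ⟨w, ?_⟩
    rw [nsmulAddMonoidHom_apply] at hw
    rw [hw]
    abel
  · intro h
    apply Equiv.ext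
    intro q
    induction q using QuotientAddGroup.induction_on with
    | H v =>
      show (QuotientAddGroup.mk (σ • v) : V ⧸ (nsmulAddMonoidHom n : V →+ V).range) = QuotientAddGroup.mk v
      symm
      rw [QuotientAddGroup.eq]
      obtain ⟨w, hw⟩ := h v
      refine ⟨w, ?_⟩
      rw [nsmulAddMonoidHom_apply, hw]
      abel

lemma key {e : ℕ} {k : ℕ} (hk : ∀ v : V, e ^ k • v = 0) (σ : Γ) (hσ : σ ^ e = 1)
    (h : ∀ i : ℕ, ∀ v : V, ∃ w : V, σ ^ i • v = v + e ^ 2 • w) (v : V) : σ • (e • v) = e • v := by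
  have h1 : ∀ v : V, ∃ w : V, σ • (e • v) - e • v = e • (-(σ • (e • w) - e • w)) := by
    intro v
    choose w hw using fun i => h i v
    refine ⟨∑ i ∈ range e, w i, ?_⟩
    have h2 : ∑ i ∈ range e, (σ ^ (i + 1) • v - σ ^ i • v) = 0 := by
      rw [Finset.sum_range_sub (fun i => σ ^ i • v), hσ, pow_zero, sub_self]
    have h3 : ∑ i ∈ range e, (σ ^ (i + 1) • v - σ ^ i • v) =
        σ • (∑ i ∈ range e, σ ^ i • v) - ∑ i ∈ range e, σ ^ i • v := by
      rw [Finset.sum_sub_distrib, Finset.smul_sum]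
      congr 1
      refine Finset.sum_congr rfl fun i _ => ?_
      rw [pow_succ', mul_smul]
    have h4 : ∑ i ∈ range e, σ ^ i • v = e • v + e ^ 2 • ∑ i ∈ range e, w i := by
      simp_rw [hw]
      rw [Finset.sum_add_distrib, Finset.sum_const, card_range, Finset.smul_sum]
    rw [h3, h4] at h2
    have h5 : e ^ 2 • ∑ i ∈ range e, w i = e • (e • ∑ i ∈ range e, w i) := by
      rw [pow_two, mul_nsmul]
    rw [h5, smul_add, smul_ns σ e (e • ∑ i ∈ range e, w i)] at h2
    rw [smul_neg, nsmul_sub, eq_neg_iff_add_eq_zero]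
    rw [← h2]
    abel
  have h2 : ∀ j : ℕ, ∀ v : V, ∃ w : V, σ • (e • v) - e • v = e ^ j • w := by
    intro j
    induction j with
    | zero => intro v; exact ⟨_, by rw [pow_zero, one_nsmul]⟩
    | succ j ih =>
      intro v
      obtain ⟨w, hw⟩ := h1 v
      obtain ⟨x, hx⟩ := ih w
      refine ⟨-x, ?_⟩
      rw [hw, hx, pow_succ', mul_nsmul', smul_neg, smul_neg, smul_neg]
  obtain ⟨w, hw⟩ := h2 k v
  rw [hk w] at hw
  exact sub_eq_zero.1 hw

theorem main : S_DIV := by
  intro m e he V _ _ hV hL Γ _ _ _ hΓ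
  obtain ⟨k, hk⟩ := hV
  classical
  have hfin : Finite Γ := by
    apply Finite.of_injective (fun σ : Γ => fun v : V => σ • v)
    intro σ τ h
    exact FaithfulSMul.eq_of_smul_eq_smul (fun v => congrFun h v)
  letI := act (V := V) (Γ := Γ) (e ^ 2)
  set φ := MulAction.toPermHom Γ (V ⧸ (nsmulAddMonoidHom (e ^ 2) : V →+ V).range) with hφ
  have h1 := Subgroup.card_mul_index φ.ker
  rw [Subgroup.index_ker] at h1
  have h2 : Nat.card φ.range ≤ (e ^ (2 * m)).factorial := by
    have h3 : Nat.card φ.range ≤ Nat.card (Equiv.Perm (V ⧸ (nsmulAddMonoidHom (e ^ 2) : V →+ V).range)) :=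
      Nat.card_le_card_of_injective _ Subtype.val_injective
    rw [Nat.card_perm, card_quot] at h3
    refine h3.trans (Nat.factorial_le ?_)
    have h4 := hL (e ^ 2) (by positivity)
    rwa [← pow_mul] at h4
  have h3 : Nat.card φ.ker ≤ (e ^ m) ^ (e ^ m) := by
    have hE : Nat.card {v : V // e • v = 0} ≤ e ^ m := hL e he
    have hmem : ∀ σ : φ.ker, ∀ i : ℕ, ∀ v : V, ∃ w : V, (σ : Γ) ^ i • v = v + e ^ 2 • w := by
      intro σ i
      exact (mem_kernel (e ^ 2) _).1 (Subgroup.pow_mem _ σ.2 i)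
    have hkey : ∀ σ : φ.ker, ∀ v : V, (σ : Γ) • (e • v) = e • v := fun σ v =>
      key hk (σ : Γ) (hΓ _) (hmem σ) v
    let F : φ.ker → ((V ⧸ (nsmulAddMonoidHom e : V →+ V).range) → {v : V // e • v = 0}) := fun σ q =>
      ⟨(σ : Γ) • (Quotient.out q : V) - Quotient.out q, by
        rw [nsmul_sub, ← smul_ns, hkey, sub_self]⟩
    have hF : Function.Injective F := by
      intro σ τ h
      apply Subtype.ext
      apply FaithfulSMul.eq_of_smul_eq_smul (α := V)
      intro v
      have h4 := congrArg Subtype.val (congrFun h (QuotientAddGroup.mk v))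
      simp only [F] at h4
      set y : V := Quotient.out (QuotientAddGroup.mk v : V ⧸ (nsmulAddMonoidHom e : V →+ V).range) with hy
      have h5 : (QuotientAddGroup.mk y : V ⧸ (nsmulAddMonoidHom e : V →+ V).range) = QuotientAddGroup.mk v :=
        Quotient.out_eq' _
      obtain ⟨w, hw⟩ := QuotientAddGroup.eq.1 h5
      rw [nsmulAddMonoidHom_apply] at hw
      have h6 : v = y + e • w := by rw [hw]; abel
      have h7 : (σ : Γ) • y = (τ : Γ) • y := by
        have := sub_left_inj.1 h4
        exact this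
      rw [h6, smul_add, smul_add, hkey, hkey, h7]
    have h5 := Nat.card_le_card_of_injective F hF
    rw [Nat.card_fun, card_quot] at h5
    refine h5.trans ?_
    calc Nat.card {v : V // e • v = 0} ^ Nat.card {v : V // e • v = 0}
        ≤ (e ^ m) ^ Nat.card {v : V // e • v = 0} := Nat.pow_le_pow_left hE _
      _ ≤ (e ^ m) ^ (e ^ m) := Nat.pow_le_pow_right (by positivity) hE
  rw [← h1, mul_comm]
  exact Nat.mul_le_mul h2 h3

end Pool.Agent.Helper91.IX.DIV
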