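import Pool.Agent.Helper91.IX.Stm

/-!
# IX: the bound for the abelian `ℓ`-groups
-/

set_option autoImplicit false

namespace Pool.Agent.Helper91.IX.FIN

open Pool.Agent.Helper91.IX

lemma card_le_perm {ℓ : ℕ} {W : Type} [AddCommGroup W] [Module (ZMod ℓ) W] [Finite W]
    {Γ : Type} [Group Γ] (ρ : Γ →* (W →ₗ[ZMod ℓ] W)) (hρ : Function.Injective ρ) :
    Nat.card Γ ≤ (Nat.card W).factorial := by
  classical
  have hl : ∀ (g : Γ) (w : W), ρ g⁻¹ (ρ g w) = w := by
    intro g w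
    have h : (ρ g⁻¹ * ρ g) w = w := by rw [← map_mul, inv_mul_cancel, map_one]; rfl
    exact h
  have hr : ∀ (g : Γ) (w : W), ρ g (ρ g⁻¹ w) = w := by
    intro g w
    have h : (ρ g * ρ g⁻¹) w = w := by rw [← map_mul, mul_inv_cancel, map_one]; rfl
    exact h
  let F : Γ → Equiv.Perm W := fun g =>
    { toFun := fun w => ρ g w, invFun := fun w => ρ g⁻¹ w, left_inv := hl g, right_inv := hr g }
  have hF : Function.Injective F := by
    intro g h hgh
    apply hρ
    ext w
    exact congrArg (fun e : Equiv.Perm W => e w) hgh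
  have h1 := Nat.card_le_card_of_injective F hF
  rwa [Nat.card_perm] at h1

theorem main (h1 : S_DIV) (h2 : S_COP) (h3 : S_TR) : S_FIN := by
  intro ℓ hℓ m e he V _ _ hk hV Γ _ _ _ hΓ
  unfold bd
  by_cases hd : ℓ ∣ e
  · have hk' : ∃ k : ℕ, ∀ v : V, e ^ k • v = 0 := by
      obtain ⟨k, hk⟩ := hk
      refine ⟨k, fun v => ?_⟩
      obtain ⟨c, hc⟩ := pow_dvd_pow_of_dvd hd k
      rw [hc, mul_comm, mul_smul, hk v, smul_zero]
    have h := h1 m e he V hk' hV Γ hΓ
    omega
  · obtain ⟨W, _, _, _, ρ, hW, hρ⟩ := h2 ℓ m e he hd V hk (hV ℓ hℓ.out.pos) Γ hΓ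
    by_cases hm : m < ℓ
    · have h := (h3 ℓ m e he hd hm W hW Γ ρ hρ hΓ).2
      omega
    · push Not at hm
      have : Finite W := Module.finite_of_finite (ZMod ℓ)
      have h := card_le_perm ρ hρ
      have hc : Nat.card W ≤ m ^ m := by
        have h4 : Nat.card W = Nat.card (ZMod ℓ) ^ Module.finrank (ZMod ℓ) W :=
          Module.natCard_eq_pow_finrank
        rw [h4, Nat.card_zmod]
        calc ℓ ^ Module.finrank (ZMod ℓ) W ≤ ℓ ^ m := Nat.pow_le_pow_right hℓ.out.pos hW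
          _ ≤ m ^ m := Nat.pow_le_pow_left hm m
      have h5 := Nat.factorial_le hc
      omega

end Pool.Agent.Helper91.IX.FIN
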