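import Mathlib

/-!
# IX: module statements (MP_160b6c_nt, torsion over infinite extensions with Galois group of bounded exponent)

Each module: file `Pool/Agent/Helper91/IX/<Name>.lean`, `import Pool.Agent.Helper91.IX.Stm`,
`namespace Pool.Agent.Helper91.IX.<Name>`, `theorem main : S_<Name>` (only standard axioms, everything in `Type`).
-/

set_option autoImplicit false

namespace Pool.Agent.Helper91.IX

/-- TB (30-50 lines). The traces of the endomorphisms `f` with `f ^ e = 1` of a vector space of dimension `≤ m` over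
`ℤ/ℓ` take at most `e ^ m` values.
Proof: over the algebraic closure `k` of `ZMod ℓ` the trace is the sum of the roots of the characteristic polynomial
(`Matrix.trace_eq_sum_roots_charpoly` for the mapped matrix `A.map (algebraMap _ k)`, `n = finrank` roots by
`IsAlgClosed.card_roots..`/`splits`), each root is an eigenvalue `μ` of `A.map _`, so `μ ^ e = 1` as `A ^ e = 1`. So the image
of the trace in `k` lies in the image of `(Fin n → nthRootsFinset e 1) → k, x ↦ ∑ x i` (at most `e ^ n ≤ e ^ m` values),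
and `ZMod ℓ → k` is injective. -/
def S_TB : Prop := ∀ (ℓ : ℕ) [Fact ℓ.Prime] (m e : ℕ), 0 < e → ∀ (W : Type) [AddCommGroup W] [Module (ZMod ℓ) W]
  [FiniteDimensional (ZMod ℓ) W], Module.finrank (ZMod ℓ) W ≤ m →
  Set.ncard {t : ZMod ℓ | ∃ f : W →ₗ[ZMod ℓ] W, f ^ e = 1 ∧ t = LinearMap.trace (ZMod ℓ) W f} ≤ e ^ m

/-- TR (60-90 lines; `main (h : S_TB) : S_TR`). A group `Γ` of exponent dividing `e`, `ℓ ∤ e`, acting faithfully on a space
of dimension `n ≤ m < ℓ` over `ℤ/ℓ` has at most `e ^ (m ^ 3)` elements (Burnside).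
Proof: choose `g_1, …, g_r ∈ Γ` such that `ρ g_1, …, ρ g_r` is a basis of the span of `ρ(Γ)` in `End W`
(`exists_linearIndependent`), `r ≤ n ^ 2 ≤ m ^ 2`. The map `g ↦ (tr ρ(g g_i))_i` has at most `(e ^ m) ^ (m ^ 2)` values
by `S_TB`. It is injective: if `g, h` have the same image then `tr ((ρ g - ρ h) a) = 0` for all `a` in the span. Let
`u = g h⁻¹`; with `a = ρ (h⁻¹ u ^ j)` (note `(g - h) h⁻¹ u^j = u^(j+1) - u^j`) we get `tr ρ(u)^(j+1) = tr ρ(u)^j` for all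
`j`, so `tr ρ(u)^j = n` for all `j`. The endomorphism `p = e⁻¹ ∑_{j<e} ρ(u)^j` is idempotent with trace `n` in `ZMod ℓ`; its
rank is the trace mod `ℓ` (`LinearMap.IsIdempotentElem...`/`LinearMap.IsProj.trace`), and `0 ≤ rank ≤ n < ℓ`, so the rank is
`n`, `p = 1`, and `ρ(u) = ρ(u) p = p = 1`, `u = 1`. -/
def S_TR : Prop := ∀ (ℓ : ℕ) [Fact ℓ.Prime] (m e : ℕ), 0 < e → ¬ ℓ ∣ e → m < ℓ →
  ∀ (W : Type) [AddCommGroup W] [Module (ZMod ℓ) W] [FiniteDimensional (ZMod ℓ) W], Module.finrank (ZMod ℓ) W ≤ m →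
  ∀ (Γ : Type) [Group Γ] (ρ : Γ →* (W →ₗ[ZMod ℓ] W)), Function.Injective ρ → (∀ g : Γ, g ^ e = 1) →
  Finite Γ ∧ Nat.card Γ ≤ e ^ (m ^ 3)

/-- DIV (60-80 lines). `V` a finite abelian group killed by a power of `e`, with at most `L ^ m` elements killed by `L`, and
`Γ` a group of exponent dividing `e` acting faithfully on `V`. Then `|Γ| ≤ (e ^ (2 m))! * (e ^ m) ^ (e ^ m)`.
Proof: let `Γ₁` be the set of the `σ` with `σ v - v ∈ e² V` for all `v` (kernel of the action on `V / e² V`, which has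
`|V[e²]| ≤ e ^ (2 m)` elements, so the index of `Γ₁` is `≤ (e ^ (2 m))!`). For `σ ∈ Γ₁` put `δ = σ - 1`,
`u = ∑_{i<e} σ ^ i`: `δ u = σ ^ e - 1 = 0` and `u v = e v + e² w` with some `w = w(v)`. So `δ(e v) = - e δ(e w(v))`, and
iterating `δ (e v) ∈ e ^ k V` for all `k`, so `δ (e v) = 0`, that is `e δ(v) = 0`. Hence `σ ↦ δ` maps `Γ₁` injectively to the
functions `V / e V → V[e]`, at most `(e ^ m) ^ (e ^ m)`. -/
def S_DIV : Prop := ∀ (m e : ℕ), 0 < e → ∀ (V : Type) [AddCommGroup V] [Finite V], (∃ k : ℕ, ∀ v : V, e ^ k • v = 0) →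
  (∀ L : ℕ, 0 < L → Nat.card {v : V // L • v = 0} ≤ L ^ m) →
  ∀ (Γ : Type) [Group Γ] [DistribMulAction Γ V] [FaithfulSMul Γ V], (∀ g : Γ, g ^ e = 1) →
  Nat.card Γ ≤ (e ^ (2 * m)).factorial * (e ^ m) ^ (e ^ m)

/-- COP (50-70 lines). `V` a finite abelian group killed by a power of the prime `ℓ`, with at most `ℓ ^ m` elements killed by
`ℓ`, and `Γ` a group of exponent dividing `e`, `ℓ ∤ e`, acting faithfully on `V`. Then `Γ` acts faithfully on `W = V / ℓ V`,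
a space of dimension `≤ m` over `ℤ/ℓ`.
Proof: `|V / ℓ V| = |V[ℓ]| ≤ ℓ ^ m`. If `σ` acts trivially on `V / ℓ V`, `δ = σ - 1`, `u = ∑_{i<e} σ ^ i`, then
`u v = e v + ℓ w(v)`, `δ u = σ ^ e - 1 = 0`, so `e δ(v) = - ℓ δ(w(v))`; as `e` is invertible on `V`, `δ(v) ∈ ℓ ^ k V` for all
`k` by induction (`δ(V) ⊆ ℓ^k V → δ(V) ⊆ ℓ^(k+1) V`), so `δ = 0`. -/
def S_COP : Prop := ∀ (ℓ : ℕ) [Fact ℓ.Prime] (m e : ℕ), 0 < e → ¬ ℓ ∣ e →
  ∀ (V : Type) [AddCommGroup V] [Finite V], (∃ k : ℕ, ∀ v : V, ℓ ^ k • v = 0) →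
  Nat.card {v : V // ℓ • v = 0} ≤ ℓ ^ m →
  ∀ (Γ : Type) [Group Γ] [DistribMulAction Γ V] [FaithfulSMul Γ V], (∀ g : Γ, g ^ e = 1) →
  ∃ (W : Type) (_ : AddCommGroup W) (_ : Module (ZMod ℓ) W) (_ : FiniteDimensional (ZMod ℓ) W)
    (ρ : Γ →* (W →ₗ[ZMod ℓ] W)), Module.finrank (ZMod ℓ) W ≤ m ∧ Function.Injective ρ

/-- The bound. -/
def bd (m e : ℕ) : ℕ := (e ^ (2 * m)).factorial * (e ^ m) ^ (e ^ m) + e ^ (m ^ 3) + (m ^ m).factorial

/-- FIN (30-40 lines; `main (h1 : S_DIV) (h2 : S_COP) (h3 : S_TR) : S_FIN`). `V` a finite abelian `ℓ`-group. Three cases: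
`ℓ ∣ e` (then `ℓ ^ k • v = 0` gives `e ^ k • v = 0`): `S_DIV`; `ℓ ∤ e`, `m < ℓ`: `S_COP`, `S_TR`; `ℓ ∤ e`, `ℓ ≤ m`: by `S_COP`
`Γ` embeds into the permutations of `W`, `|W| = ℓ ^ finrank ≤ m ^ m`, so `|Γ| ≤ (m ^ m)!`. -/
def S_FIN : Prop := ∀ (ℓ : ℕ) [Fact ℓ.Prime] (m e : ℕ), 0 < e →
  ∀ (V : Type) [AddCommGroup V] [Finite V], (∃ k : ℕ, ∀ v : V, ℓ ^ k • v = 0) →
  (∀ L : ℕ, 0 < L → Nat.card {v : V // L • v = 0} ≤ L ^ m) →
  ∀ (Γ : Type) [Group Γ] [DistribMulAction Γ V] [FaithfulSMul Γ V], (∀ g : Γ, g ^ e = 1) →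
  Nat.card Γ ≤ bd m e

end Pool.Agent.Helper91.IX
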