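import Pool.Agent.Helper91.IX.Stm

set_option autoImplicit false

/-!
# Traces of endomorphisms of bounded order
-/

namespace Pool.Agent.Helper91.IX.TB

theorem root_pow {k : Type} [Field k] {n : ℕ} (B : Matrix (Fin n) (Fin n) k) (e : ℕ)
    (hB : B ^ e = 1) (μ : k) (hμ : B.charpoly.IsRoot μ) : μ ^ e = 1 := by
  have h1 : (Matrix.scalar (Fin n) μ - B).det = 0 := by
    rw [← Matrix.eval_charpoly]
    exact hμ
  obtain ⟨v, hv, hv2⟩ := Matrix.exists_mulVec_eq_zero_iff.2 h1
  have h2 : B.mulVec v = μ • v := by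
    rw [Matrix.sub_mulVec, sub_eq_zero] at hv2
    rw [← hv2]
    ext i
    simp [Matrix.scalar_apply, Matrix.mulVec_diagonal]
  have h3 : ∀ j : ℕ, (B ^ j).mulVec v = μ ^ j • v := by
    intro j
    induction j with
    | zero => simp
    | succ j ih =>
      rw [pow_succ, ← Matrix.mulVec_mulVec, h2, Matrix.mulVec_smul, ih, smul_smul, pow_succ, mul_comm]
  have h4 := h3 e
  rw [hB, Matrix.one_mulVec] at h4
  obtain ⟨i, hi⟩ := Function.ne_iff.1 hv
  have h5 := congrFun h4 i
  simp only [Pi.smul_apply, smul_eq_mul, Pi.zero_apply] at h5 hi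
  have h6 : (μ ^ e - 1) * v i = 0 := by linear_combination -h5
  rcases mul_eq_zero.1 h6 with h | h
  · exact sub_eq_zero.1 h
  · exact absurd h hi

theorem main : S_TB := by
  classical
  intro ℓ _ m e he W _ _ _ hm
  obtain ⟨n, hn⟩ : ∃ n, n = Module.finrank (ZMod ℓ) W := ⟨_, rfl⟩
  rw [← hn] at hm
  let k := AlgebraicClosure (ZMod ℓ)
  let b : Module.Basis (Fin n) (ZMod ℓ) W := (Module.finBasisOfFinrankEq (ZMod ℓ) W hn.symm)
  let N : Finset k := Polynomial.nthRootsFinset e (1 : k)
  let F : (Fin n → N) → k := fun x => ∑ i, (x i : k)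
  have hsub : (algebraMap (ZMod ℓ) k) '' {t : ZMod ℓ | ∃ f : W →ₗ[ZMod ℓ] W, f ^ e = 1 ∧
      t = LinearMap.trace (ZMod ℓ) W f} ⊆ ((Finset.univ.image F : Finset k) : Set k) := by
    rintro _ ⟨t, ⟨f, hf, rfl⟩, rfl⟩
    obtain ⟨A, hA⟩ : ∃ A : Matrix (Fin n) (Fin n) (ZMod ℓ), A = LinearMap.toMatrix b b f := ⟨_, rfl⟩
    have hAe : A ^ e = 1 := by
      rw [hA]
      have h2 : ∀ j : ℕ, (LinearMap.toMatrix b b f) ^ j = LinearMap.toMatrix b b (f ^ j) := by
        intro j
        induction j with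
        | zero => rw [pow_zero, pow_zero, LinearMap.toMatrix_one]
        | succ j ih => rw [pow_succ, pow_succ, ih, LinearMap.toMatrix_mul]
      rw [h2, hf, LinearMap.toMatrix_one]
    obtain ⟨B, hB⟩ : ∃ B : Matrix (Fin n) (Fin n) k, B = A.map (algebraMap (ZMod ℓ) k) := ⟨_, rfl⟩
    have hBe : B ^ e = 1 := by
      have h1 : B = (algebraMap (ZMod ℓ) k).mapMatrix A := hB
      rw [h1, ← map_pow, hAe, map_one]
    have htr : algebraMap (ZMod ℓ) k (LinearMap.trace (ZMod ℓ) W f) = B.charpoly.roots.sum := by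
      rw [← Matrix.trace_eq_sum_roots_charpoly, LinearMap.trace_eq_matrix_trace (ZMod ℓ) b f, ← hA,
        hB]
      exact (AddMonoidHom.map_trace ((algebraMap (ZMod ℓ) k) : ZMod ℓ →+ k) A)
    have hcard : B.charpoly.roots.card = n := by
      rw [← (IsAlgClosed.splits B.charpoly).natDegree_eq_card_roots, Matrix.charpoly_natDegree_eq_dim,
        Fintype.card_fin]
    obtain ⟨l, hl⟩ : ∃ l : List k, (l : Multiset k) = B.charpoly.roots := Quot.exists_rep _
    have hlen : l.length = n := by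
      rw [← hcard, ← hl, Multiset.coe_card]
    subst hlen
    rw [Finset.mem_coe, Finset.mem_image]
    refine ⟨fun i => ⟨l.get i, ?_⟩, Finset.mem_univ _, ?_⟩
    · rw [Polynomial.mem_nthRootsFinset he]
      apply root_pow B e hBe
      have h1 : l.get i ∈ B.charpoly.roots := by
        rw [← hl]
        exact Multiset.mem_coe.2 (List.get_mem l i)
      exact (Polynomial.mem_roots'.1 h1).2
    · have h3 : B.charpoly.roots.sum = l.sum := by rw [← hl, Multiset.sum_coe]
      refine Eq.trans ?_ (htr.trans h3).symm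
      show ∑ i : Fin l.length, l.get i = l.sum
      simp
  have hinj : Function.Injective (algebraMap (ZMod ℓ) k) := (algebraMap (ZMod ℓ) k).injective
  rw [← Set.ncard_image_of_injective _ hinj]
  refine (Set.ncard_le_ncard hsub (Finset.finite_toSet _)).trans ?_
  rw [Set.ncard_coe_finset]
  refine Finset.card_image_le.trans ?_
  rw [Finset.card_univ, Fintype.card_fun, Fintype.card_fin, Fintype.card_coe]
  have hN : N.card ≤ e := by
    show (Polynomial.nthRootsFinset e (1 : k)).card ≤ e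
    rw [Polynomial.nthRootsFinset_def]
    exact (Multiset.toFinset_card_le _).trans (Polynomial.card_nthRoots _ _)
  exact (Nat.pow_le_pow_left hN n).trans (Nat.pow_le_pow_right he hm)

end Pool.Agent.Helper91.IX.TB
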