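import Pool.Agent.Helper91.IX.Stm

set_option autoImplicit false

namespace Pool.Agent.Helper91.IX.TR

open Module

theorem eq_one_of_trace {ℓ : ℕ} [Fact ℓ.Prime] {m e : ℕ} (hle : ¬ ℓ ∣ e) (hm : m < ℓ)
    {W : Type} [AddCommGroup W] [Module (ZMod ℓ) W] [FiniteDimensional (ZMod ℓ) W]
    (hW : finrank (ZMod ℓ) W ≤ m) (u : W →ₗ[ZMod ℓ] W) (hu : u ^ e = 1)
    (ht : ∀ j : ℕ, LinearMap.trace (ZMod ℓ) W (u ^ j) = (finrank (ZMod ℓ) W : ZMod ℓ)) : u = 1 := by
  have he0 : (e : ZMod ℓ) ≠ 0 := by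
    intro h
    exact hle ((ZMod.natCast_eq_zero_iff _ _).mp h)
  set s : W →ₗ[ZMod ℓ] W := ∑ j ∈ Finset.range e, u ^ j with hs
  have h1 : u * s = s := by
    have h2 : ∑ j ∈ Finset.range e, u ^ (j + 1) + u ^ 0 = s + u ^ e := by
      rw [hs, ← Finset.sum_range_succ, ← Finset.sum_range_succ']
    rw [hu, pow_zero] at h2
    have h3 : u * s = ∑ j ∈ Finset.range e, u ^ (j + 1) := by
      rw [hs, Finset.mul_sum]
      exact Finset.sum_congr rfl fun j _ => (pow_succ' u j).symm
    rw [h3]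
    exact add_right_cancel h2
  have h2 : ∀ j : ℕ, u ^ j * s = s := by
    intro j
    induction j with
    | zero => rw [pow_zero, one_mul]
    | succ j ih => rw [pow_succ, mul_assoc, h1, ih]
  have h3 : s * s = (e : ZMod ℓ) • s := by
    conv_lhs => rw [hs]
    rw [Finset.sum_mul, Finset.sum_congr rfl fun j _ => h2 j, Finset.sum_const, Finset.card_range,
      Nat.cast_smul_eq_nsmul]
  set p : W →ₗ[ZMod ℓ] W := (e : ZMod ℓ)⁻¹ • s with hp
  have hpp : IsIdempotentElem p := by
    show p * p = p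
    rw [hp, smul_mul_smul_comm, h3, smul_smul]
    congr 1
    field_simp
  have hup : u * p = p := by
    rw [hp, mul_smul_comm, h1]
  have htr : LinearMap.trace (ZMod ℓ) W p = (finrank (ZMod ℓ) W : ZMod ℓ) := by
    rw [hp, map_smul, hs, map_sum, Finset.sum_congr rfl fun j _ => ht j, Finset.sum_const,
      Finset.card_range, smul_eq_mul, nsmul_eq_mul, ← mul_assoc, inv_mul_cancel₀ he0, one_mul]
  have hproj : LinearMap.IsProj (LinearMap.range p) p := by
    constructor
    · intro x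
      exact LinearMap.mem_range_self p x
    · rintro _ ⟨x, rfl⟩
      exact LinearMap.congr_fun hpp x
  rw [hproj.trace] at htr
  have hlt1 : finrank (ZMod ℓ) (LinearMap.range p) < ℓ :=
    lt_of_le_of_lt ((Submodule.finrank_le _).trans hW) hm
  have hlt2 : finrank (ZMod ℓ) W < ℓ := lt_of_le_of_lt hW hm
  have heq : finrank (ZMod ℓ) (LinearMap.range p) = finrank (ZMod ℓ) W := by
    rw [ZMod.natCast_eq_natCast_iff'] at htr
    rwa [Nat.mod_eq_of_lt hlt1, Nat.mod_eq_of_lt hlt2] at htr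
  have htop : LinearMap.range p = ⊤ := Submodule.eq_top_of_finrank_eq heq
  have hp1 : p = 1 := by
    apply LinearMap.ext
    intro y
    obtain ⟨x, rfl⟩ : y ∈ LinearMap.range p := htop ▸ Submodule.mem_top
    exact LinearMap.congr_fun hpp x
  rw [hp1, mul_one] at hup
  exact hup

theorem main (h : S_TB) : S_TR := by
  intro ℓ _ m e he hle hm W _ _ _ hW Γ _ ρ hρ hexp
  have hT := h ℓ m e he W hW
  set T : Set (ZMod ℓ) :=
    {t : ZMod ℓ | ∃ f : W →ₗ[ZMod ℓ] W, f ^ e = 1 ∧ t = LinearMap.trace (ZMod ℓ) W f} with hTdef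
  obtain ⟨b, hb, hspan, hli⟩ := exists_linearIndependent (ZMod ℓ) (Set.range ρ)
  have hbfin : Finite b := hli.finite
  have hbcard : Nat.card b ≤ m ^ 2 := by
    have := Fintype.ofFinite b
    have h1 := hli.fintype_card_le_finrank
    rw [Module.finrank_linearMap] at h1
    rw [Nat.card_eq_fintype_card]
    calc Fintype.card b ≤ finrank (ZMod ℓ) W * finrank (ZMod ℓ) W := h1
      _ ≤ m * m := Nat.mul_le_mul hW hW
      _ = m ^ 2 := by ring
  have hmem : ∀ (g : Γ) (a : b), LinearMap.trace (ZMod ℓ) W (ρ g * a.1) ∈ T := by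
    intro g a
    obtain ⟨x, hx⟩ := hb a.2
    refine ⟨ρ g * a.1, ?_, rfl⟩
    rw [← hx, ← map_mul, ← map_pow, hexp, map_one]
  let Φ : Γ → (b → T) := fun g a => ⟨_, hmem g a⟩
  have hΦ : Function.Injective Φ := by
    intro g x hgx
    have h1 : ∀ a ∈ b, LinearMap.trace (ZMod ℓ) W (ρ g * a) = LinearMap.trace (ZMod ℓ) W (ρ x * a) := by
      intro a ha
      have := congrFun hgx ⟨a, ha⟩
      exact Subtype.ext_iff.mp this
    have h2 : ∀ a ∈ Submodule.span (ZMod ℓ) b,
        LinearMap.trace (ZMod ℓ) W (ρ g * a) = LinearMap.trace (ZMod ℓ) W (ρ x * a) := by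
      intro a ha
      induction ha using Submodule.span_induction with
      | mem a ha => exact h1 a ha
      | zero => rw [mul_zero, mul_zero]
      | add a c _ _ h3 h4 => rw [mul_add, mul_add, map_add, map_add, h3, h4]
      | smul c a _ h3 => rw [mul_smul_comm, mul_smul_comm, map_smul, map_smul, h3]
    have h3 : ∀ y : Γ, LinearMap.trace (ZMod ℓ) W (ρ (g * y)) =
        LinearMap.trace (ZMod ℓ) W (ρ (x * y)) := by
      intro y
      rw [ρ.map_mul, ρ.map_mul]
      apply h2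
      rw [hspan]
      exact Submodule.subset_span ⟨y, rfl⟩
    set u : Γ := g * x⁻¹ with hu
    have h4 : ∀ j : ℕ, LinearMap.trace (ZMod ℓ) W (ρ u ^ j) = (finrank (ZMod ℓ) W : ZMod ℓ) := by
      intro j
      induction j with
      | zero => rw [pow_zero, LinearMap.trace_one]
      | succ j ih =>
        have h5 := h3 (x⁻¹ * u ^ j)
        rw [← mul_assoc, ← mul_assoc, mul_inv_cancel, one_mul, ← hu, ← pow_succ', ρ.map_pow,
          ρ.map_pow] at h5
        rw [h5, ih]
    have h5 : ρ u = 1 := by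
      apply eq_one_of_trace hle hm hW (ρ u) _ h4
      rw [← map_pow, hexp, map_one]
    have h6 : u = 1 := hρ (by rw [h5, map_one])
    rw [hu, mul_inv_eq_one] at h6
    exact h6
  have hfin : Finite Γ := Finite.of_injective Φ hΦ
  refine ⟨hfin, ?_⟩
  calc Nat.card Γ ≤ Nat.card (b → T) := Nat.card_le_card_of_injective Φ hΦ
    _ = Nat.card T ^ Nat.card b := Nat.card_fun
    _ ≤ (e ^ m) ^ Nat.card b := Nat.pow_le_pow_left (by rw [Nat.card_coe_set_eq]; exact hT) _
    _ ≤ (e ^ m) ^ (m ^ 2) := Nat.pow_le_pow_right (Nat.pow_pos he) hbcard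
    _ = e ^ (m ^ 3) := by rw [← pow_mul]; congr 1; ring

end Pool.Agent.Helper91.IX.TR
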